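import Mathlib
import Pool.Agent.K1H77.CG.Stm

/-! # Piece ORB: orbit counting -/

set_option autoImplicit false
set_option linter.style.haveILetI false

open Finset Filter Topology

namespace Pool.Agent.K1H97.CG

open Pool.Agent.K1H77.CG

/-- the permutations of the edge-ends over a permutation of the vertices -/
def WG (n : ℕ) : Subgroup (Equiv.Perm (HE n)) where
  carrier := {σ | ∃ π : Equiv.Perm (Fin n), ∀ h, (σ h).1 = π h.1}
  mul_mem' := by
    rintro σ τ ⟨π, hπ⟩ ⟨ρ, hρ⟩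
    exact ⟨π * ρ, fun h => by simp [hπ, hρ]⟩
  one_mem' := ⟨1, fun _ => rfl⟩
  inv_mem' := by
    rintro σ ⟨π, hπ⟩
    refine ⟨π⁻¹, fun h => ?_⟩
    rw [Equiv.Perm.eq_inv_iff_eq, ← hπ]
    simp

theorem mem_WG {n : ℕ} {σ : Equiv.Perm (HE n)} :
    σ ∈ WG n ↔ ∃ π : Equiv.Perm (Fin n), ∀ h, (σ h).1 = π h.1 := Iff.rfl

theorem iso_iff {n : ℕ} {M M' : Equiv.Perm (HE n)} :
    Iso M M' ↔ ∃ σ : WG n, (σ : Equiv.Perm (HE n)) * M * (σ : Equiv.Perm (HE n))⁻¹ = M' := by
  constructor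
  · rintro ⟨π, σ, h1, h2⟩
    refine ⟨⟨σ, π, h1⟩, ?_⟩
    rw [mul_inv_eq_iff_eq_mul]
    ext1 h
    exact h2 h
  · rintro ⟨⟨σ, π, h1⟩, h2⟩
    refine ⟨π, σ, h1, fun h => ?_⟩
    change σ * M * σ⁻¹ = M' at h2
    rw [mul_inv_eq_iff_eq_mul] at h2
    exact congrArg (fun τ : Equiv.Perm (HE n) => τ h) h2

theorem isMat_iso {n : ℕ} {M M' : Equiv.Perm (HE n)} (h : Iso M M') (hM : IsMat M) : IsMat M' := by
  obtain ⟨π, σ, h1, h2⟩ := h
  refine ⟨fun x => ?_, fun x hx => ?_⟩
  · obtain ⟨y, rfl⟩ := σ.surjective x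
    rw [← h2, ← h2, hM.1]
  · obtain ⟨y, rfl⟩ := σ.surjective x
    rw [← h2] at hx
    exact hM.2 y (σ.injective hx)

theorem conn_iso {n : ℕ} {M M' : Equiv.Perm (HE n)} (h : Iso M M') (hM : Conn M) : Conn M' := by
  obtain ⟨π, σ, h1, h2⟩ := h
  intro S hS hc
  have h3 : S.map π.symm.toEmbedding = univ := by
    apply hM
    · simpa using hS
    · intro x hx
      rw [Finset.mem_map_equiv, Equiv.symm_symm] at hx ⊢
      rw [← h1] at hx ⊢
      rw [h2]
      exact hc _ hx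
  ext v
  refine ⟨fun _ => mem_univ _, fun _ => ?_⟩
  have h4 : π.symm v ∈ S.map π.symm.toEmbedding := by
    rw [h3]
    exact mem_univ _
  rw [Finset.mem_map_equiv, Equiv.symm_symm, Equiv.apply_symm_apply] at h4
  exact h4

/-- connected cubic multigraphs with the property `P` -/
def AA (n : ℕ) (P : Equiv.Perm (HE n) → Prop) : Type :=
  {M : Equiv.Perm (HE n) // (IsMat M ∧ Conn M) ∧ P M}

section

variable {n : ℕ} {P : Equiv.Perm (HE n) → Prop}

/-- the action by conjugation -/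
@[instance_reducible]
def act (hP : ∀ M M', Iso M M' → P M → P M') : MulAction (WG n) (AA n P) where
  smul g M := ⟨(g : Equiv.Perm (HE n)) * M.1 * (g : Equiv.Perm (HE n))⁻¹, by
    have h1 : Iso M.1 ((g : Equiv.Perm (HE n)) * M.1 * (g : Equiv.Perm (HE n))⁻¹) :=
      iso_iff.2 ⟨g, rfl⟩
    exact ⟨⟨isMat_iso h1 M.2.1.1, conn_iso h1 M.2.1.2⟩, hP _ _ h1 M.2.2⟩⟩
  one_smul M := by
    apply Subtype.ext
    change (1 : Equiv.Perm (HE n)) * M.1 * (1 : Equiv.Perm (HE n))⁻¹ = M.1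
    simp
  mul_smul g h M := by
    apply Subtype.ext
    change ((g : Equiv.Perm (HE n)) * (h : Equiv.Perm (HE n))) * M.1 *
      ((g : Equiv.Perm (HE n)) * (h : Equiv.Perm (HE n)))⁻¹ =
      (g : Equiv.Perm (HE n)) * ((h : Equiv.Perm (HE n)) * M.1 * (h : Equiv.Perm (HE n))⁻¹) *
      (g : Equiv.Perm (HE n))⁻¹
    rw [mul_inv_rev]
    simp only [mul_assoc]

instance : Finite (AA n P) := by
  unfold AA
  infer_instance

end

theorem t_ORB : S_ORB := by
  classical
  intro n P hP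
  letI := act hP
  have hsm : ∀ (g : WG n) (M : AA n P),
      (g • M).1 = (g : Equiv.Perm (HE n)) * M.1 * (g : Equiv.Perm (HE n))⁻¹ := fun _ _ => rfl
  have hrel : ∀ M M' : AA n P, MulAction.orbitRel (WG n) (AA n P) M M' ↔ Iso M.1 M'.1 := by
    intro M M'
    rw [MulAction.orbitRel_apply, MulAction.mem_orbit_iff]
    constructor
    · rintro ⟨g, hg⟩
      apply Iso.symm
      rw [iso_iff]
      exact ⟨g, by rw [← hg]; rfl⟩
    · intro h
      obtain ⟨g, hg⟩ := iso_iff.1 h.symm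
      exact ⟨g, Subtype.ext hg⟩
  -- the orbits
  let Ω := Quotient (MulAction.orbitRel (WG n) (AA n P))
  let X : Set (Cls n) := {x | ∃ M : CubicGraph n, Quotient.mk (isoSetoid n) M = x ∧ P M.1}
  have hX : Nat.card Ω = X.ncard := by
    let f : Ω → X := Quotient.lift
      (fun M : AA n P => (⟨Quotient.mk (isoSetoid n) ⟨M.1, M.2.1⟩, ⟨M.1, M.2.1⟩, rfl, M.2.2⟩ : X))
      (fun M M' h => Subtype.ext (Quotient.sound (s := isoSetoid n) ((hrel M M').1 h)))
    refine Nat.card_eq_of_bijective f ⟨?_, ?_⟩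
    · intro x y
      refine Quotient.inductionOn₂ x y fun M M' h => ?_
      have h1 := congrArg Subtype.val h
      have h2 : Iso M.1 M'.1 := Quotient.exact (s := isoSetoid n) h1
      exact Quotient.sound ((hrel M M').2 h2)
    · rintro ⟨x, M, hx, hM⟩
      exact ⟨Quotient.mk _ ⟨M.1, M.2, hM⟩, Subtype.ext hx⟩
  have hW : Nat.card (WG n) = (Wr n).card := by
    have h1 : (WG n : Set (Equiv.Perm (HE n))) = ((Wr n : Finset _) : Set (Equiv.Perm (HE n))) := by
      ext σ
      simp [Wr, mem_WG]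
    have h2 : Nat.card (WG n) = (WG n : Set (Equiv.Perm (HE n))).ncard := rfl
    rw [h2, h1, Set.ncard_coe_finset]
  have hB := Nat.card_congr (MulAction.sigmaFixedByEquivOrbitsProdGroup (WG n) (AA n P))
  rw [Nat.card_prod] at hB
  change X.ncard * (Wr n).card = _
  rw [← hX, ← hW]
  change _ = Nat.card Ω * _ at hB
  rw [← hB]
  -- the pairs
  let A : Finset (Equiv.Perm (HE n)) := (Mat (HE n)).filter fun M => Conn M ∧ P M
  let T : Finset (Equiv.Perm (HE n) × Equiv.Perm (HE n)) :=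
    (A ×ˢ Wr n).filter fun p => ∀ h, p.2 (p.1 h) = p.1 (p.2 h)
  have hT : T.card = ∑ M ∈ A, stab M := by
    rw [Finset.card_filter, Finset.sum_product]
    refine Finset.sum_congr rfl fun M _ => ?_
    rw [stab, Finset.card_filter]
  have hA : ∀ M, M ∈ A ↔ (IsMat M ∧ Conn M) ∧ P M := by
    intro M
    simp only [A, Finset.mem_filter, mem_Mat]
    tauto
  have hT2 : Nat.card (Σ a : WG n, MulAction.fixedBy (AA n P) a) = T.card := by
    have hTc : T.card = Nat.card T := by rw [Nat.card_eq_fintype_card, Fintype.card_coe]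
    rw [hTc]
    have hfix : ∀ (g : WG n) (M : AA n P), g • M = M ↔
        ∀ h, (g : Equiv.Perm (HE n)) (M.1 h) = M.1 ((g : Equiv.Perm (HE n)) h) := by
      intro g M
      constructor
      · intro h1 h
        have h2 := congrArg Subtype.val h1
        rw [hsm, mul_inv_eq_iff_eq_mul] at h2
        exact congrArg (fun τ : Equiv.Perm (HE n) => τ h) h2
      · intro h1
        apply Subtype.ext
        rw [hsm, mul_inv_eq_iff_eq_mul]
        ext1 h
        exact h1 h
    refine Nat.card_congr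
      { toFun := fun p => ⟨(p.2.1.1, p.1.1), ?_⟩
        invFun := fun q => ⟨⟨q.1.2, ?_⟩, ⟨⟨q.1.1, ?_⟩, ?_⟩⟩
        left_inv := fun p => rfl
        right_inv := fun q => rfl }
    · obtain ⟨g, M, hM⟩ := p
      simp only [T, Finset.mem_filter, Finset.mem_product, hA]
      refine ⟨⟨M.2, ?_⟩, (hfix g M).1 hM⟩
      obtain ⟨π, hπ⟩ := g.2
      simp only [Wr, Finset.mem_filter, Finset.mem_univ, true_and]
      exact ⟨π, hπ⟩
    · have := (Finset.mem_product.1 (Finset.mem_filter.1 q.2).1).2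
      simpa [Wr, mem_WG] using this
    · exact (hA _).1 (Finset.mem_product.1 (Finset.mem_filter.1 q.2).1).1
    · exact (hfix _ _).2 (Finset.mem_filter.1 q.2).2
  rw [hT2, hT]

end Pool.Agent.K1H97.CG
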